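import Mathlib
import Pool.Agent.MP_44c6d5_nt.Uni

/-!
The inequality of Mahler `M (f') ≤ deg f * M (f)`.
-/

set_option autoImplicit false

namespace Pool.Agent.FLV

open Polynomial Real MeasureTheory ComplexConjugate

/-- the factor `X - a` with `a` reflected into the closed unit disk. -/
noncomputable def bl (a : ℂ) : ℂ[X] := if ‖a‖ ≤ 1 then X - C a else C (conj a) * X + C (-1)

theorem bl_degree (a : ℂ) : (bl a).degree = 1 := by
  unfold bl
  split_ifs with h
  · exact degree_X_sub_C a
  · apply degree_linear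
    intro h0
    have h1 : ‖conj a‖ = 0 := by rw [h0, norm_zero]
    rw [Complex.norm_conj] at h1
    rw [h1] at h
    exact h zero_le_one

theorem bl_ne_zero (a : ℂ) : bl a ≠ 0 := by
  intro h
  have := bl_degree a
  rw [h] at this
  simp at this

theorem bl_natDegree (a : ℂ) : (bl a).natDegree = 1 :=
  natDegree_eq_of_degree_eq_some (bl_degree a)

theorem bl_lead (a : ℂ) : ‖(bl a).leadingCoeff‖ = max 1 ‖a‖ := by
  unfold bl
  split_ifs with h
  · rw [leadingCoeff_X_sub_C, norm_one, max_eq_left h]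
  · have h0 : conj a ≠ 0 := by
      intro h0
      have h1 : ‖conj a‖ = 0 := by rw [h0, norm_zero]
      rw [Complex.norm_conj] at h1
      rw [h1] at h
      exact h zero_le_one
    rw [leadingCoeff_linear h0, Complex.norm_conj, max_eq_right (not_le.1 h).le]

theorem bl_sq (a z : ℂ) :
    ‖conj a * z + (-1)‖ ^ 2 - ‖z - a‖ ^ 2 = (‖z‖ ^ 2 - 1) * (‖a‖ ^ 2 - 1) := by
  rw [← Complex.normSq_eq_norm_sq, ← Complex.normSq_eq_norm_sq, ← Complex.normSq_eq_norm_sq,
    ← Complex.normSq_eq_norm_sq]
  simp only [Complex.normSq_apply, Complex.add_re, Complex.add_im, Complex.mul_re, Complex.mul_im,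
    Complex.conj_re, Complex.conj_im, Complex.sub_re, Complex.sub_im, Complex.neg_re,
    Complex.neg_im, Complex.one_re, Complex.one_im]
  ring

theorem bl_ge (a z : ℂ) (hz : 1 ≤ ‖z‖) : ‖z - a‖ ≤ ‖(bl a).eval z‖ := by
  unfold bl
  split_ifs with h
  · simp
  · have h1 := bl_sq a z
    have h2 : 1 < ‖a‖ := not_le.1 h
    have h3 : 0 ≤ (‖z‖ ^ 2 - 1) * (‖a‖ ^ 2 - 1) := by
      apply mul_nonneg <;> nlinarith
    have h4 : ‖z - a‖ ^ 2 ≤ ‖conj a * z + (-1)‖ ^ 2 := by linarith
    have h5 : ‖z - a‖ ≤ ‖conj a * z + (-1)‖ := by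
      exact (pow_le_pow_iff_left₀ (norm_nonneg _) (norm_nonneg _) (by norm_num)).1 h4
    simpa using h5

theorem bl_ne (a z : ℂ) (hz : 1 < ‖z‖) : (bl a).eval z ≠ 0 := by
  unfold bl
  split_ifs with h
  · intro h0
    have h1 : z = a := by
      have : z - a = 0 := by simpa using h0
      exact sub_eq_zero.1 this
    rw [h1] at hz
    linarith
  · intro h0
    have h1 := bl_sq a z
    have h2 : 1 < ‖a‖ := not_le.1 h
    have h3 : conj a * z + (-1) = 0 := by simpa using h0
    rw [h3, norm_zero] at h1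
    have h4 : 0 < (‖z‖ ^ 2 - 1) * (‖a‖ ^ 2 - 1) := by
      apply mul_pos <;> nlinarith
    have h5 : 0 ≤ ‖z - a‖ ^ 2 := by positivity
    nlinarith

/-- the polynomial with all roots reflected. -/
noncomputable def refl (f : ℂ[X]) : ℂ[X] := C f.leadingCoeff * (f.roots.map bl).prod

theorem prod_bl_ne_zero (s : Multiset ℂ) : (s.map bl).prod ≠ 0 := by
  rw [Ne, Multiset.prod_eq_zero_iff]
  intro h
  obtain ⟨a, _, ha⟩ := Multiset.mem_map.1 h
  exact bl_ne_zero a ha

theorem refl_ne_zero {f : ℂ[X]} (hf : f ≠ 0) : refl f ≠ 0 :=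
  mul_ne_zero (by simpa using hf) (prod_bl_ne_zero _)

theorem prod_bl_ge (s : Multiset ℂ) (z : ℂ) (hz : 1 ≤ ‖z‖) :
    ‖(s.map fun a => z - a).prod‖ ≤ ‖((s.map bl).prod).eval z‖ := by
  induction s using Multiset.induction_on with
  | empty => simp
  | cons a s ih =>
    simp only [Multiset.map_cons, Multiset.prod_cons, eval_mul, norm_mul]
    exact mul_le_mul (bl_ge a z hz) ih (norm_nonneg _) (norm_nonneg _)

theorem prod_bl_ne (s : Multiset ℂ) (z : ℂ) (hz : 1 < ‖z‖) :
    ((s.map bl).prod).eval z ≠ 0 := by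
  induction s using Multiset.induction_on with
  | empty => simp
  | cons a s ih =>
    simp only [Multiset.map_cons, Multiset.prod_cons, eval_mul]
    exact mul_ne_zero (bl_ne a z hz) ih

theorem prod_bl_natDegree (s : Multiset ℂ) : ((s.map bl).prod).natDegree = Multiset.card s := by
  induction s using Multiset.induction_on with
  | empty => simp
  | cons a s ih =>
    simp only [Multiset.map_cons, Multiset.prod_cons, Multiset.card_cons]
    rw [natDegree_mul (bl_ne_zero a) (prod_bl_ne_zero s), ih, bl_natDegree]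
    ring

theorem prod_bl_lead (s : Multiset ℂ) :
    ‖((s.map bl).prod).leadingCoeff‖ = (s.map fun a => max 1 ‖a‖).prod := by
  induction s using Multiset.induction_on with
  | empty => simp
  | cons a s ih =>
    simp only [Multiset.map_cons, Multiset.prod_cons, leadingCoeff_mul, norm_mul]
    rw [ih, bl_lead]

theorem refl_natDegree {f : ℂ[X]} (hf : f ≠ 0) : (refl f).natDegree = f.natDegree := by
  unfold refl
  rw [natDegree_C_mul (by simpa using hf), prod_bl_natDegree]
  exact splits_iff_card_roots.mp (IsAlgClosed.splits f)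

theorem refl_lead (f : ℂ[X]) : ‖(refl f).leadingCoeff‖ = f.mahlerMeasure := by
  unfold refl
  rw [leadingCoeff_mul, leadingCoeff_C, norm_mul, prod_bl_lead,
    mahlerMeasure_eq_leadingCoeff_mul_prod_roots]

theorem refl_ge (f : ℂ[X]) (z : ℂ) (hz : 1 ≤ ‖z‖) : ‖f.eval z‖ ≤ ‖(refl f).eval z‖ := by
  have h1 : f.eval z = f.leadingCoeff * (f.roots.map fun a => z - a).prod := by
    conv_lhs => rw [(IsAlgClosed.splits f).eq_prod_roots]
    rw [eval_mul, eval_C, eval_multiset_prod, Multiset.map_map]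
    congr 3
    funext a
    simp
  rw [h1]
  unfold refl
  rw [eval_mul, eval_C, norm_mul, norm_mul]
  exact mul_le_mul_of_nonneg_left (prod_bl_ge _ z hz) (norm_nonneg _)

theorem refl_ne {f : ℂ[X]} (hf : f ≠ 0) (z : ℂ) (hz : 1 < ‖z‖) : (refl f).eval z ≠ 0 := by
  unfold refl
  rw [eval_mul, eval_C]
  exact mul_ne_zero (by simpa using hf) (prod_bl_ne _ z hz)

/-- Gauss-Lucas for the unit disk. -/
theorem gl {g : ℂ[X]} (hg : 0 < g.natDegree) (h : ∀ z : ℂ, 1 < ‖z‖ → g.eval z ≠ 0) :
    ∀ z : ℂ, 1 < ‖z‖ → g.derivative.eval z ≠ 0 := by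
  intro z hz h0
  have hd : g.derivative ≠ 0 := by
    intro h1
    have := natDegree_eq_zero_of_derivative_eq_zero h1
    omega
  have h1 : z ∈ g.derivative.rootSet ℂ := by
    rw [mem_rootSet]
    exact ⟨hd, by simpa using h0⟩
  have h2 := rootSet_derivative_subset_convexHull_rootSet (P := g)
    (natDegree_pos_iff_degree_pos.1 hg) h1
  have h3 : g.rootSet ℂ ⊆ Metric.closedBall 0 1 := by
    intro w hw
    rw [mem_rootSet] at hw
    rw [mem_closedBall_zero_iff]
    by_contra hcon
    exact h w (not_le.1 hcon) (by simpa using hw.2)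
  have h4 : convexHull ℝ (g.rootSet ℂ) ⊆ Metric.closedBall 0 1 :=
    convexHull_min h3 (convex_closedBall _ _)
  have h5 := h4 h2
  rw [mem_closedBall_zero_iff] at h5
  linarith

theorem deriv_le_out {f : ℂ[X]} (hf : 0 < f.natDegree) (z : ℂ) (hz : 1 < ‖z‖) :
    ‖f.derivative.eval z‖ ≤ ‖(refl f).derivative.eval z‖ := by
  by_contra hcon
  rw [not_le] at hcon
  have hf0 : f ≠ 0 := by
    rintro rfl
    simp at hf
  have hR0 := refl_ne_zero hf0
  have hRd := refl_natDegree hf0
  have h1 : (refl f).derivative.eval z ≠ 0 := gl (by rw [hRd]; exact hf) (refl_ne hf0) z hz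
  set lam : ℂ := f.derivative.eval z / (refl f).derivative.eval z with hlam
  have h2 : 1 < ‖lam‖ := by
    rw [hlam, norm_div, one_lt_div (norm_pos_iff.2 h1)]
    exact hcon
  have h3 : (f - C lam * refl f).derivative.eval z = 0 := by
    rw [derivative_sub, derivative_C_mul, eval_sub, eval_mul, eval_C, hlam]
    field_simp
    ring
  have hlead : ‖f.leadingCoeff‖ ≤ ‖(refl f).leadingCoeff‖ := by
    rw [refl_lead]
    exact leadingCoeff_le_mahlerMeasure f
  have hlpos : 0 < ‖(refl f).leadingCoeff‖ := norm_pos_iff.2 (by simpa using hR0)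
  have h4 : (f - C lam * refl f).coeff f.natDegree ≠ 0 := by
    intro h5
    rw [coeff_sub, coeff_C_mul, coeff_natDegree] at h5
    have h6 : (refl f).coeff f.natDegree = (refl f).leadingCoeff := by
      rw [← hRd, coeff_natDegree]
    rw [h6] at h5
    have h7 : ‖f.leadingCoeff‖ = ‖lam‖ * ‖(refl f).leadingCoeff‖ := by
      rw [sub_eq_zero.1 h5, norm_mul]
    nlinarith
  have h5 : 0 < (f - C lam * refl f).natDegree :=
    lt_of_lt_of_le hf (le_natDegree_of_ne_zero h4)
  refine gl h5 ?_ z hz h3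
  intro w hw h6
  rw [eval_sub, eval_mul, eval_C, sub_eq_zero] at h6
  have h7 := refl_ge f w hw.le
  have h8 := norm_pos_iff.2 (refl_ne hf0 w hw)
  rw [h6, norm_mul] at h7
  nlinarith

theorem deriv_le {f : ℂ[X]} (hf : 0 < f.natDegree) (z : ℂ) (hz : ‖z‖ = 1) :
    ‖f.derivative.eval z‖ ≤ ‖(refl f).derivative.eval z‖ := by
  have h1 : Filter.Tendsto (fun r : ℝ => ‖f.derivative.eval ((r : ℂ) * z)‖)
      (nhdsWithin 1 (Set.Ioi 1)) (nhds ‖f.derivative.eval (((1 : ℝ) : ℂ) * z)‖) := by
    apply Filter.Tendsto.mono_left _ nhdsWithin_le_nhds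
    apply Continuous.tendsto
    exact (f.derivative.continuous.comp ((Complex.continuous_ofReal).mul continuous_const)).norm
  have h2 : Filter.Tendsto (fun r : ℝ => ‖(refl f).derivative.eval ((r : ℂ) * z)‖)
      (nhdsWithin 1 (Set.Ioi 1)) (nhds ‖(refl f).derivative.eval (((1 : ℝ) : ℂ) * z)‖) := by
    apply Filter.Tendsto.mono_left _ nhdsWithin_le_nhds
    apply Continuous.tendsto
    exact ((refl f).derivative.continuous.comp
      ((Complex.continuous_ofReal).mul continuous_const)).norm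
  have h3 := le_of_tendsto_of_tendsto h1 h2 (by
    filter_upwards [self_mem_nhdsWithin] with r hr
    apply deriv_le_out hf
    rw [norm_mul, hz, mul_one, Complex.norm_real, Real.norm_eq_abs]
    exact lt_of_lt_of_le hr (le_abs_self r))
  simpa using h3

theorem mahler_refl_deriv {f : ℂ[X]} (hf : 0 < f.natDegree) :
    (refl f).derivative.mahlerMeasure = f.natDegree * f.mahlerMeasure := by
  have hf0 : f ≠ 0 := by
    rintro rfl
    simp at hf
  have hRd := refl_natDegree hf0
  have h1 : ∀ z : ℂ, 1 < ‖z‖ → (refl f).derivative.eval z ≠ 0 :=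
    gl (by rw [hRd]; exact hf) (refl_ne hf0)
  have h2 : ((refl f).derivative.roots.map (fun a => max 1 ‖a‖)).prod = 1 := by
    apply Multiset.prod_eq_one
    intro x hx
    obtain ⟨a, ha, rfl⟩ := Multiset.mem_map.1 hx
    apply max_eq_left
    by_contra hcon
    exact h1 a (not_le.1 hcon) (isRoot_of_mem_roots ha)
  rw [mahlerMeasure_eq_leadingCoeff_mul_prod_roots, h2, mul_one, leadingCoeff_derivative, norm_mul,
    refl_lead, hRd, Complex.norm_natCast, mul_comm]

end Pool.Agent.FLV
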