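import Mathlib
import Pool.Agent.FLV.Mahler
import Pool.Agent.MP_44c6d5_nt.Integr

/-!
The coefficients of a polynomial with few terms are bounded by its Mahler measure.
-/

set_option autoImplicit false

namespace Pool.Agent.FLV

open Polynomial Real MeasureTheory ComplexConjugate
open Pool.Agent.MP_44c6d5_nt (e norm_e e_ne_zero integral_log_norm_e integrable_log_norm_e
  ae_eval_ne_zero e_zsmul)

theorem mahler_le_of_le {p q : ℂ[X]} (hp : p ≠ 0)
    (h : ∀ z : ℂ, ‖z‖ = 1 → ‖p.eval z‖ ≤ ‖q.eval z‖) : p.mahlerMeasure ≤ q.mahlerMeasure := by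
  have hq : q ≠ 0 := by
    rintro rfl
    obtain ⟨t, ht⟩ := (ae_eval_ne_zero hp).exists
    have := h (e t) (norm_e t)
    rw [eval_zero, norm_zero] at this
    exact ht (norm_eq_zero.1 (le_antisymm this (norm_nonneg _)))
  have h1 : ∫ t, log ‖p.eval (e t)‖ ≤ ∫ t, log ‖q.eval (e t)‖ := by
    apply integral_mono_ae (integrable_log_norm_e p) (integrable_log_norm_e q)
    filter_upwards [ae_eval_ne_zero hp] with t ht
    exact Real.log_le_log (norm_pos_iff.2 ht) (h (e t) (norm_e t))
  rw [integral_log_norm_e, integral_log_norm_e, logMahlerMeasure_eq_log_MahlerMeasure,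
    logMahlerMeasure_eq_log_MahlerMeasure] at h1
  exact (Real.log_le_log_iff (mahlerMeasure_pos_of_ne_zero hp)
    (mahlerMeasure_pos_of_ne_zero hq)).1 h1

/-- **Mahler's inequality.** -/
theorem mahler_deriv_le (f : ℂ[X]) :
    f.derivative.mahlerMeasure ≤ f.natDegree * f.mahlerMeasure := by
  rcases Nat.eq_zero_or_pos f.natDegree with h | h
  · have : f.derivative = 0 := by
      rw [eq_C_of_natDegree_eq_zero h, derivative_C]
    rw [this, h]
    simp
  · rw [← mahler_refl_deriv h]
    apply mahler_le_of_le
    · intro h0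
      rw [derivative_eq_zero] at h0
      omega
    · exact fun z hz => deriv_le h z hz

theorem mahler_reverse (f : ℂ[X]) : f.reverse.mahlerMeasure = f.mahlerMeasure := by
  by_cases hf : f = 0
  · rw [hf, reverse_zero]
  have hr : f.reverse ≠ 0 := by simpa using hf
  have h1 : ∀ t : UnitAddCircle, ‖f.reverse.eval (e (-t))‖ = ‖f.eval (e t)‖ := by
    intro t
    let _ : Invertible (e t) := invertibleOfNonzero (e_ne_zero t)
    have h2 := eval₂_reverse_mul_pow (RingHom.id ℂ) (e t) f
    have h3 : (⅟(e t) : ℂ) = e (-t) := by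
      rw [invOf_eq_inv]
      have := e_zsmul (-1) t
      rw [neg_one_zsmul, zpow_neg_one] at this
      exact this.symm
    rw [h3] at h2
    have h4 : f.reverse.eval (e (-t)) * e t ^ f.natDegree = f.eval (e t) := h2
    rw [← h4, norm_mul, norm_pow, norm_e, one_pow, mul_one]
  have h2 : ∫ t, log ‖f.reverse.eval (e t)‖ = ∫ t, log ‖f.eval (e t)‖ := by
    rw [← integral_neg_eq_self (fun t => log ‖f.reverse.eval (e t)‖) volume]
    simp only [h1]
  rw [integral_log_norm_e, integral_log_norm_e, logMahlerMeasure_eq_log_MahlerMeasure,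
    logMahlerMeasure_eq_log_MahlerMeasure] at h2
  exact Real.log_injOn_pos (mahlerMeasure_pos_of_ne_zero hr) (mahlerMeasure_pos_of_ne_zero hf) h2

/-- induction step, upper half of the coefficients. -/
theorem step {l : ℕ} (ih : ∀ f : ℂ[X], f.support.card ≤ l + 1 → ∀ i,
      ‖f.coeff i‖ ≤ 2 ^ l * f.mahlerMeasure)
    {g : ℂ[X]} (h0 : g.coeff 0 ≠ 0) (hc : g.support.card ≤ l + 2) {i : ℕ} (hi : 0 < i)
    (h2 : g.natDegree ≤ 2 * i) : ‖g.coeff i‖ ≤ 2 ^ (l + 1) * g.mahlerMeasure := by
  obtain ⟨j, rfl⟩ : ∃ j, i = j + 1 := ⟨i - 1, by omega⟩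
  have hcard : g.derivative.support.card ≤ l + 1 := by
    have h3 : g.derivative.support.card ≤ (g.support.erase 0).card := by
      apply Finset.card_le_card_of_injOn (fun a => a + 1)
      · intro a ha
        have ha' : a ∈ g.derivative.support := by simpa using ha
        rw [mem_support_iff, coeff_derivative] at ha'
        have : g.coeff (a + 1) ≠ 0 := left_ne_zero_of_mul ha'
        simp [this]
      · intro a _ b _ hab
        simpa using hab
    rw [Finset.card_erase_of_mem (mem_support_iff.2 h0)] at h3
    omega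
  have h3 := ih _ hcard j
  rw [coeff_derivative, norm_mul] at h3
  have h4 : ‖((j : ℂ) + 1)‖ = (j : ℝ) + 1 := by
    have : ((j : ℂ) + 1) = ((j + 1 : ℕ) : ℂ) := by push_cast; ring
    rw [this, Complex.norm_natCast]
    push_cast; ring
  rw [h4] at h3
  have h5 := mahler_deriv_le g
  have h6 : (g.natDegree : ℝ) ≤ 2 * ((j : ℝ) + 1) := by exact_mod_cast h2
  have hM := g.mahlerMeasure_nonneg
  have h7 : ‖g.coeff (j + 1)‖ * ((j : ℝ) + 1) ≤
      (2 ^ (l + 1) * g.mahlerMeasure) * ((j : ℝ) + 1) := by
    calc ‖g.coeff (j + 1)‖ * ((j : ℝ) + 1) ≤ 2 ^ l * g.derivative.mahlerMeasure := h3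
      _ ≤ 2 ^ l * (2 * ((j : ℝ) + 1) * g.mahlerMeasure) := by
          apply mul_le_mul_of_nonneg_left _ (by positivity)
          exact h5.trans (mul_le_mul_of_nonneg_right h6 hM)
      _ = (2 ^ (l + 1) * g.mahlerMeasure) * ((j : ℝ) + 1) := by ring
  exact le_of_mul_le_mul_right h7 (by positivity)

/-- **Coefficients of polynomials with few terms** (Dobrowolski and Smyth, with a slightly weaker
constant). -/
theorem coeff_le : ∀ (l : ℕ) (f : ℂ[X]), f.support.card ≤ l + 1 → ∀ i,
    ‖f.coeff i‖ ≤ 2 ^ l * f.mahlerMeasure := by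
  intro l
  induction l with
  | zero =>
    intro f hf i
    have hM := f.mahlerMeasure_nonneg
    rw [pow_zero, one_mul]
    by_cases hi : f.coeff i = 0
    · rw [hi, norm_zero]
      exact hM
    · have hf0 : f ≠ 0 := by
        rintro rfl
        exact hi (coeff_zero i)
      have h1 : i = f.natDegree :=
        Finset.card_le_one.1 (by simpa using hf) i (mem_support_iff.2 hi) f.natDegree
          (natDegree_mem_support_of_nonzero hf0)
      rw [h1, coeff_natDegree]
      exact leadingCoeff_le_mahlerMeasure f
  | succ l ih =>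
    intro f hf i
    by_cases hf0 : f = 0
    · rw [hf0]; simp
    obtain ⟨g, hg⟩ : X ^ f.natTrailingDegree ∣ f := by
      rw [X_pow_dvd_iff]
      intro d hd
      exact coeff_eq_zero_of_lt_natTrailingDegree hd
    set a := f.natTrailingDegree with ha
    have hco : ∀ d, f.coeff (d + a) = g.coeff d := by
      intro d
      conv_lhs => rw [hg]
      rw [mul_comm, coeff_mul_X_pow]
    have h0 : g.coeff 0 ≠ 0 := by
      rw [← hco 0, zero_add, ha]
      have := mem_support_iff.1 (natTrailingDegree_mem_support_of_nonzero hf0)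
      exact this
    have hM : f.mahlerMeasure = g.mahlerMeasure := by
      conv_lhs => rw [hg]
      rw [mahlerMeasure_mul]
      have : (X ^ a : ℂ[X]).mahlerMeasure = 1 := by
        rw [mahlerMeasure_eq_leadingCoeff_mul_prod_roots]
        simp [Multiset.map_nsmul, Multiset.prod_nsmul]
      rw [this, one_mul]
    have hcg : g.support.card ≤ l + 2 := by
      refine le_trans ?_ hf
      apply Finset.card_le_card_of_injOn (fun d => d + a)
      · intro d hd
        have hd' : d ∈ g.support := by simpa using hd
        have : f.coeff (d + a) ≠ 0 := by rw [hco d]; exact mem_support_iff.1 hd'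
        simpa using this
      · intro x _ y _ hxy
        simpa using hxy
    have hMg := g.mahlerMeasure_nonneg
    have key : ∀ d, ‖g.coeff d‖ ≤ 2 ^ (l + 1) * g.mahlerMeasure := by
      intro d
      rcases lt_or_ge g.natDegree d with hd | hd
      · rw [coeff_eq_zero_of_natDegree_lt hd, norm_zero]
        positivity
      rcases Nat.eq_zero_or_pos g.natDegree with hN | hN
      · have : d = g.natDegree := by omega
        rw [this, coeff_natDegree]
        have h1 := leadingCoeff_le_mahlerMeasure g
        have h2 : (1 : ℝ) ≤ 2 ^ (l + 1) := one_le_pow₀ (by norm_num)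
        nlinarith
      rcases le_total g.natDegree (2 * d) with h2 | h2
      · exact step ih h0 hcg (by omega) h2
      · have hr0 : g.reverse.coeff 0 ≠ 0 := by
          rw [coeff_zero_reverse]
          intro h
          rw [leadingCoeff_eq_zero] at h
          rw [h] at h0
          simp at h0
        have hrc : g.reverse.support.card ≤ l + 2 := by
          refine le_trans ?_ hcg
          apply Finset.card_le_card_of_injOn (revAt g.natDegree)
          · intro x hx
            have hx' : x ∈ g.reverse.support := by simpa using hx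
            rw [mem_support_iff, coeff_reverse] at hx'
            simpa using hx'
          · intro x _ y _ hxy
            exact (revAt g.natDegree).injective hxy
        have h3 := step (i := g.natDegree - d) ih hr0 hrc (by omega)
          ((reverse_natDegree_le g).trans (by omega))
        rw [coeff_reverse, revAt_le (by omega), mahler_reverse] at h3
        have h4 : g.natDegree - (g.natDegree - d) = d := by omega
        rwa [h4] at h3
    rw [hM]
    rcases lt_or_ge i a with h | h
    · rw [coeff_eq_zero_of_lt_natTrailingDegree h, norm_zero]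
      positivity
    · obtain ⟨d, rfl⟩ : ∃ d, i = d + a := ⟨i - a, by omega⟩
      rw [hco]
      exact key d

theorem eval_le {l : ℕ} {f : ℂ[X]} (hf : f.support.card ≤ l + 1) {z : ℂ} (hz : ‖z‖ = 1) :
    ‖f.eval z‖ ≤ (l + 1 : ℕ) * 2 ^ l * f.mahlerMeasure := by
  have hM := f.mahlerMeasure_nonneg
  rw [eval_eq_sum, Polynomial.sum]
  calc ‖∑ i ∈ f.support, f.coeff i * z ^ i‖ ≤ ∑ i ∈ f.support, ‖f.coeff i * z ^ i‖ :=
        norm_sum_le _ _
    _ ≤ ∑ i ∈ f.support, 2 ^ l * f.mahlerMeasure := by
        apply Finset.sum_le_sum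
        intro i _
        rw [norm_mul, norm_pow, hz, one_pow, mul_one]
        exact coeff_le l f hf i
    _ = f.support.card * (2 ^ l * f.mahlerMeasure) := by rw [Finset.sum_const, nsmul_eq_mul]
    _ ≤ (l + 1 : ℕ) * (2 ^ l * f.mahlerMeasure) := by
        apply mul_le_mul_of_nonneg_right _ (by positivity)
        exact_mod_cast hf
    _ = (l + 1 : ℕ) * 2 ^ l * f.mahlerMeasure := by ring

end Pool.Agent.FLV
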