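import Mathlib
import Pool.Agent.FLV.Terms

/-!
The coefficients of a polynomial with exponents in a given finite set, by elimination of the
terms of highest degree.
-/

set_option autoImplicit false

namespace Pool.Agent.FLV

open Polynomial Real MeasureTheory
open Pool.Agent.MP_44c6d5_nt (e norm_e e_ne_zero integral_log_norm_e e_zsmul)

theorem mahler_reflect (f : ℂ[X]) {t : ℕ} (ht : f.natDegree ≤ t) :
    (f.reflect t).mahlerMeasure = f.mahlerMeasure := by
  by_cases hf : f = 0
  · rw [hf, reflect_zero]
  have hr : f.reflect t ≠ 0 := by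
    intro h
    exact hf ((reflect_eq_zero_iff).1 h)
  have h1 : ∀ s : UnitAddCircle, ‖(f.reflect t).eval (e (-s))‖ = ‖f.eval (e s)‖ := by
    intro s
    let _ : Invertible (e s) := invertibleOfNonzero (e_ne_zero s)
    have h2 := eval₂_reflect_mul_pow (RingHom.id ℂ) (e s) t f ht
    have h3 : (⅟(e s) : ℂ) = e (-s) := by
      rw [invOf_eq_inv]
      have := e_zsmul (-1) s
      rw [neg_one_zsmul, zpow_neg_one] at this
      exact this.symm
    rw [h3] at h2
    have h4 : (f.reflect t).eval (e (-s)) * e s ^ t = f.eval (e s) := h2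
    rw [← h4, norm_mul, norm_pow, norm_e, one_pow, mul_one]
  have h2 : ∫ s, log ‖(f.reflect t).eval (e s)‖ = ∫ s, log ‖f.eval (e s)‖ := by
    rw [← integral_neg_eq_self (fun s => log ‖(f.reflect t).eval (e s)‖) volume]
    simp only [h1]
  rw [integral_log_norm_e, integral_log_norm_e, logMahlerMeasure_eq_log_MahlerMeasure,
    logMahlerMeasure_eq_log_MahlerMeasure] at h2
  exact Real.log_injOn_pos (mahlerMeasure_pos_of_ne_zero hr) (mahlerMeasure_pos_of_ne_zero hf) h2

/-- Mahler's inequality for the operator that kills the term of degree `t`. -/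
theorem mahler_top_le (f : ℂ[X]) {t : ℕ} (ht : f.natDegree ≤ t) :
    (C (t : ℂ) * f - X * f.derivative).mahlerMeasure ≤ t * f.mahlerMeasure := by
  have h1 : (C (t : ℂ) * f - X * f.derivative).natDegree ≤ t := by
    rw [natDegree_le_iff_coeff_eq_zero]
    intro i hi
    obtain ⟨j, rfl⟩ : ∃ j, i = j + 1 := ⟨i - 1, by omega⟩
    rw [coeff_sub, coeff_C_mul, coeff_X_mul, coeff_derivative,
      coeff_eq_zero_of_natDegree_lt (by omega)]
    ring
  have h2 : (C (t : ℂ) * f - X * f.derivative).reflect t = X * (f.reflect t).derivative := by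
    ext i
    rw [coeff_reflect]
    rcases Nat.eq_zero_or_pos i with hi | hi
    · subst hi
      rw [revAt_zero, coeff_X_mul_zero, coeff_sub, coeff_C_mul]
      rcases Nat.eq_zero_or_pos t with h0 | h0
      · subst h0; simp
      · obtain ⟨s, rfl⟩ : ∃ s, t = s + 1 := ⟨t - 1, by omega⟩
        rw [coeff_X_mul, coeff_derivative]
        push_cast
        ring
    · obtain ⟨j, rfl⟩ : ∃ j, i = j + 1 := ⟨i - 1, by omega⟩
      rw [coeff_X_mul, coeff_derivative, coeff_reflect]
      rcases le_or_gt (j + 1) t with h3 | h3
      · rw [revAt_le h3, coeff_sub, coeff_C_mul]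
        rcases Nat.eq_zero_or_pos (t - (j + 1)) with h0 | h0
        · rw [h0, coeff_X_mul_zero]
          have : t = j + 1 := by omega
          rw [this]
          push_cast
          ring
        · obtain ⟨s, hs⟩ : ∃ s, t - (j + 1) = s + 1 := ⟨t - (j + 1) - 1, by omega⟩
          rw [hs, coeff_X_mul, coeff_derivative]
          have : (t : ℂ) = (s : ℂ) + 1 + ((j : ℂ) + 1) := by
            have h5 : t = s + 1 + (j + 1) := by omega
            rw [h5]
            push_cast
            ring
          rw [this]
          ring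
      · rw [revAt_eq_self_of_lt h3, coeff_eq_zero_of_natDegree_lt (by omega),
          coeff_eq_zero_of_natDegree_lt (by omega)]
        ring
  rw [← mahler_reflect _ h1, h2, mahlerMeasure_mul]
  have h3 : (X : ℂ[X]).mahlerMeasure = 1 := by
    rw [mahlerMeasure_eq_leadingCoeff_mul_prod_roots]
    simp
  rw [h3, one_mul]
  refine (mahler_deriv_le _).trans ?_
  rw [mahler_reflect f ht]
  apply mul_le_mul_of_nonneg_right _ f.mahlerMeasure_nonneg
  have h4 : (f.reflect t).natDegree ≤ t := by
    rw [natDegree_le_iff_coeff_eq_zero]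
    intro i hi
    rw [coeff_reflect, revAt_eq_self_of_lt hi, coeff_eq_zero_of_natDegree_lt (by omega)]
  exact_mod_cast h4

/-- the product of the `m / (m - s)` over the elements `m > s` of `E`. -/
noncomputable def pr (E : Finset ℕ) (s : ℕ) : ℝ :=
  ∏ m ∈ E with s < m, (m : ℝ) / ((m : ℝ) - s)

theorem pr_ge (E : Finset ℕ) (s : ℕ) : 1 ≤ pr E s := by
  unfold pr
  calc (1 : ℝ) = ∏ m ∈ E with s < m, (1 : ℝ) := by simp
    _ ≤ ∏ m ∈ E with s < m, (m : ℝ) / ((m : ℝ) - s) := by
      apply Finset.prod_le_prod (fun _ _ => zero_le_one)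
      intro m hm
      have h1 : (s : ℝ) < m := by exact_mod_cast (Finset.mem_filter.1 hm).2
      rw [le_div_iff₀ (by linarith)]
      have : (0 : ℝ) ≤ s := by positivity
      linarith

/-- **Coefficients by elimination.** -/
theorem coeff_le_pr : ∀ (r : ℕ) (E : Finset ℕ) (s : ℕ), (E.filter (fun m => s < m)).card = r →
    ∀ f : ℂ[X], f.support ⊆ E → ‖f.coeff s‖ ≤ pr E s * f.mahlerMeasure := by
  intro r
  induction r with
  | zero =>
    intro E s hE f hf
    have hM := f.mahlerMeasure_nonneg
    have h1 := pr_ge E s
    have h2 : ‖f.coeff s‖ ≤ f.mahlerMeasure := by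
      by_cases h0 : f.coeff s = 0
      · rw [h0, norm_zero]
        exact hM
      · have h3 : f.natDegree = s := by
          apply le_antisymm
          · rw [natDegree_le_iff_coeff_eq_zero]
            intro i hi
            by_contra hcon
            have h4 : i ∈ E.filter (fun m => s < m) :=
              Finset.mem_filter.2 ⟨hf (mem_support_iff.2 hcon), hi⟩
            rw [Finset.card_eq_zero] at hE
            rw [hE] at h4
            simp at h4
          · exact le_natDegree_of_ne_zero h0
        rw [← h3, coeff_natDegree]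
        exact leadingCoeff_le_mahlerMeasure f
    nlinarith
  | succ r ih =>
    intro E s hE f hf
    have hne : (E.filter (fun m => s < m)).Nonempty := by
      rw [← Finset.card_pos, hE]; omega
    set t := (E.filter (fun m => s < m)).max' hne with ht
    have htE := Finset.mem_filter.1 ((E.filter (fun m => s < m)).max'_mem hne)
    rw [← ht] at htE
    have hmax : ∀ m ∈ E, m ≤ t := by
      intro m hm
      rcases le_or_gt m s with h | h
      · exact h.trans htE.2.le
      · exact (E.filter (fun m => s < m)).le_max' m (Finset.mem_filter.2 ⟨hm, h⟩)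
    have hdeg : f.natDegree ≤ t := by
      rw [natDegree_le_iff_coeff_eq_zero]
      intro i hi
      by_contra hcon
      have := hmax i (hf (mem_support_iff.2 hcon))
      omega
    set g := C (t : ℂ) * f - X * f.derivative with hg
    have hgc : ∀ i, g.coeff i = ((t : ℂ) - i) * f.coeff i := by
      intro i
      rcases Nat.eq_zero_or_pos i with hi | hi
      · subst hi
        rw [hg, coeff_sub, coeff_C_mul, coeff_X_mul_zero]
        simp
      · obtain ⟨j, rfl⟩ : ∃ j, i = j + 1 := ⟨i - 1, by omega⟩
        rw [hg, coeff_sub, coeff_C_mul, coeff_X_mul, coeff_derivative]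
        push_cast
        ring
    have hgs : g.support ⊆ E.erase t := by
      intro i hi
      rw [mem_support_iff, hgc] at hi
      rw [Finset.mem_erase]
      constructor
      · rintro rfl
        apply hi
        rw [sub_self, zero_mul]
      · exact hf (mem_support_iff.2 (right_ne_zero_of_mul hi))
    have hfe : (E.erase t).filter (fun m => s < m) = (E.filter (fun m => s < m)).erase t := by
      ext i
      simp only [Finset.mem_filter, Finset.mem_erase]
      tauto
    have htm : t ∈ E.filter (fun m => s < m) := Finset.mem_filter.2 htE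
    have h1 := ih (E.erase t) s (by rw [hfe, Finset.card_erase_of_mem htm, hE]; rfl) g hgs
    have h2 := mahler_top_le f hdeg
    have hst : (s : ℝ) < t := by exact_mod_cast htE.2
    have h3 : ‖g.coeff s‖ = ((t : ℝ) - s) * ‖f.coeff s‖ := by
      rw [hgc, norm_mul]
      congr 1
      have : ((t : ℂ) - s) = (((t : ℝ) - s : ℝ) : ℂ) := by push_cast; ring
      rw [this, Complex.norm_real, Real.norm_eq_abs, abs_of_pos (by linarith)]
    have h4 : pr E s = pr (E.erase t) s * ((t : ℝ) / ((t : ℝ) - s)) := by
      unfold pr
      rw [hfe, mul_comm]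
      exact (Finset.mul_prod_erase _ (fun m : ℕ => (m : ℝ) / ((m : ℝ) - s)) htm).symm
    have h5 := pr_ge (E.erase t) s
    rw [h3] at h1
    have h6 : ((t : ℝ) - s) * ‖f.coeff s‖ ≤ pr (E.erase t) s * (t * f.mahlerMeasure) :=
      h1.trans (mul_le_mul_of_nonneg_left h2 (by linarith))
    rw [h4]
    have h7 : (pr (E.erase t) s * ((t : ℝ) / ((t : ℝ) - s))) * f.mahlerMeasure =
        (pr (E.erase t) s * (t * f.mahlerMeasure)) / ((t : ℝ) - s) := by
      field_simp
    rw [h7, le_div_iff₀ (by linarith)]
    linarith

end Pool.Agent.FLV
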