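import Mathlib
import Pool.Agent.FLV.Elim
import Pool.Agent.MP_44c6d5_nt.Seq

/-!
Irreducible polynomials whose exponents lie on few parallel hyperplanes.
-/

set_option autoImplicit false

namespace Pool.Agent.FLV

open MeasureTheory Real MvPolynomial Pool.Agent.MP_44c6d5_nt

variable {k : ℕ}

/-- the set of the exponents of the restrictions of `P` to the lines of direction `l`. -/
noncomputable def lev (l : Fin k → ℤ) (P : Pol k) : Finset ℕ :=
  P.support.image (fun j => (wtZ l j - ordZ l P).toNat)

theorem up_support (l : Fin k → ℤ) (P : Pol k) (x : Tor k) :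
    (up l P x).support ⊆ lev l P := by
  classical
  intro i hi
  rw [Polynomial.mem_support_iff, up, Polynomial.finsetSum_coeff] at hi
  obtain ⟨j, hj, hj'⟩ := Finset.exists_ne_zero_of_sum_ne_zero hi
  rw [Polynomial.coeff_C_mul, Polynomial.coeff_X_pow] at hj'
  have h2 : i = (wtZ l j - ordZ l P).toNat := by
    by_contra hcon
    rw [if_neg hcon, mul_zero] at hj'
    exact hj' rfl
  unfold lev
  rw [Finset.mem_image]
  exact ⟨j, hj, h2.symm⟩

/-- the number of levels. -/
theorem card_lev {u : Fin k → ℝ} {l : Fin k → ℤ} {P : Pol k}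
    (hl : ∀ j ∈ P.support, ∀ j' ∈ P.support,
      (wt u j < wt u j' → wtZ l j < wtZ l j') ∧ (wt u j = wt u j' → wtZ l j = wtZ l j')) :
    (lev l P).card ≤ (P.support.image (wt u)).card := by
  classical
  let φ : ℝ → ℕ := fun r => if h : ∃ j ∈ P.support, wt u j = r then
    (wtZ l h.choose - ordZ l P).toNat else 0
  have hφ : ∀ j ∈ P.support, φ (wt u j) = (wtZ l j - ordZ l P).toNat := by
    intro j hj
    have h : ∃ i ∈ P.support, wt u i = wt u j := ⟨j, hj, rfl⟩
    simp only [φ]
    rw [dif_pos h]
    have h1 := (hl _ h.choose_spec.1 j hj).2 h.choose_spec.2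
    rw [h1]
  refine le_trans (Finset.card_le_card (t := (P.support.image (wt u)).image φ) ?_)
    Finset.card_image_le
  intro i hi
  unfold lev at hi
  rw [Finset.mem_image] at hi ⊢
  obtain ⟨j, hj, h2⟩ := hi
  exact ⟨wt u j, Finset.mem_image_of_mem _ hj, by rw [hφ j hj, h2]⟩

/-- **Height of the pair `(P, ini P)`** when the restrictions to the lines are bounded by their
Mahler measures. -/
theorem H_ini_le (l : Fin k → ℤ) {P : Pol k} (hP : P ≠ 0) {C : ℝ} (hC : 1 ≤ C)
    (hs : ∀ (x : Tor k) (t : UnitAddCircle),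
      ‖(up l P x).eval (e t)‖ ≤ C * (up l P x).mahlerMeasure) :
    H P (ini (rl l) P) ≤ 2 * mm P + 2 * log (2 * C) := by
  classical
  have i0 := integrable_log_ev hP
  have n1 := ini_ne_zero (rl l) hP
  have i1 := integrable_logN hP (ini (rl l) P)
  have i2 := integrable_integral_line l i0
  have i3 := integrable_integral_line l i1
  have e1 : 2 * mm P + 2 * log (2 * C) =
      ∫ x, (2 * (∫ t, log ‖ev P (line l x t)‖) + 2 * log (2 * C)) := by
    rw [integral_add (i2.const_mul 2) (integrable_const _), integral_const_mul]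
    unfold mm
    rw [← integral_line l i0]
    simp
  rw [e1]
  unfold H
  rw [integral_line l i1]
  apply integral_mono_ae i3 ((i2.const_mul 2).add (integrable_const _))
  filter_upwards [ae_ev_ne_zero n1, ae_integrable_line l i1] with x hx hi
  set f := up l P x with hf
  have hc0 : f.coeff 0 = ev (ini (rl l) P) x := coeff_zero_up l hP x
  have hf0 : f ≠ 0 := by
    intro h
    apply hx
    rw [← hc0, h, Polynomial.coeff_zero]
  have hM := Polynomial.mahlerMeasure_pos_of_ne_zero hf0
  have hint : ∫ t, log ‖ev P (line l x t)‖ = log f.mahlerMeasure := by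
    simp only [norm_ev_line]
    rw [integral_log_norm_e, Polynomial.logMahlerMeasure_eq_log_MahlerMeasure]
  have hc1 : ‖f.coeff 0‖ ≤ f.mahlerMeasure := by
    have := Polynomial.norm_coeff_le_choose_mul_mahlerMeasure 0 f
    simpa using this
  have hpt : ∀ t : UnitAddCircle, log (N P (ini (rl l) P) (line l x t)) ≤
      2 * log f.mahlerMeasure + 2 * log (2 * C) := by
    intro t
    have h2 : ‖ev (ini (rl l) P) (line l x t)‖ = ‖f.coeff 0‖ := by
      rw [ev_line_ini l hP, hc0, norm_mul, norm_zpow, norm_e, one_zpow, one_mul]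
    have h3 : ‖ev P (line l x t)‖ ≤ C * f.mahlerMeasure := by
      rw [norm_ev_line]
      exact hs x t
    have h4 : N P (ini (rl l) P) (line l x t) ≤ f.mahlerMeasure ^ 2 * (2 * C) ^ 2 := by
      unfold N
      rw [h2]
      have h5 := pow_le_pow_left₀ (norm_nonneg _) h3 2
      have h6 := pow_le_pow_left₀ (norm_nonneg _) hc1 2
      have h8 : (1 : ℝ) ≤ C ^ 2 := one_le_pow₀ hC
      have h9 : f.mahlerMeasure ^ 2 ≤ f.mahlerMeasure ^ 2 * C ^ 2 :=
        le_mul_of_one_le_right (by positivity) h8
      have h10 : f.mahlerMeasure ^ 2 * (2 * C) ^ 2 = 4 * (f.mahlerMeasure ^ 2 * C ^ 2) := by ring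
      have h11 : (C * f.mahlerMeasure) ^ 2 = f.mahlerMeasure ^ 2 * C ^ 2 := by ring
      rw [h10]
      rw [h11] at h5
      have h12 : 0 ≤ f.mahlerMeasure ^ 2 * C ^ 2 := by positivity
      linarith
    have h13 : 0 < N P (ini (rl l) P) (line l x t) := by
      rw [N_comm]
      apply N_pos
      rw [← norm_pos_iff, h2, hc0, norm_pos_iff]
      exact hx
    have h14 := Real.log_le_log h13 h4
    rw [Real.log_mul (by positivity) (by positivity), Real.log_pow, Real.log_pow] at h14
    simp only [Nat.cast_ofNat] at h14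
    exact h14
  show _ ≤ 2 * (∫ t, log ‖ev P (line l x t)‖) + 2 * log (2 * C)
  rw [hint]
  calc ∫ t, log (N P (ini (rl l) P) (line l x t))
      ≤ ∫ _t : UnitAddCircle, (2 * log f.mahlerMeasure + 2 * log (2 * C)) :=
        integral_mono hi (integrable_const _) hpt
    _ = 2 * log f.mahlerMeasure + 2 * log (2 * C) := by simp

theorem card_image_pos (u : Fin k → ℝ) {P : Pol k} (hP : P ≠ 0) :
    1 ≤ (P.support.image (wt u)).card := by
  rw [Nat.succ_le_iff, Finset.card_pos]
  exact (supp_nonempty hP).image _

/-- few levels, any spacing. -/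
theorem H_levels (u : Fin k → ℝ) {P : Pol k} (hP : P ≠ 0) :
    H P (ini u P) ≤ 2 * mm P +
      2 * log ((P.support.image (wt u)).card * 2 ^ (P.support.image (wt u)).card) := by
  classical
  obtain ⟨l, hl⟩ := exists_int_weight u P.support
  have h1 : ini (rl l) P = ini u P := ini_eq_of_weight hl hP (Finset.Subset.refl _)
  rw [← h1]
  have hn1 := card_image_pos u hP
  obtain ⟨r, hr⟩ : ∃ r, (P.support.image (wt u)).card = r + 1 :=
    ⟨(P.support.image (wt u)).card - 1, by omega⟩
  have hcard : (lev l P).card ≤ r + 1 := by rw [← hr]; exact card_lev hl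
  rw [hr]
  have h2 : ((r + 1 : ℕ) : ℝ) * 2 ^ (r + 1) = 2 * (((r + 1 : ℕ) : ℝ) * 2 ^ r) := by ring
  rw [h2]
  apply H_ini_le l hP
  · have a1 : (1 : ℝ) ≤ (r + 1 : ℕ) := by exact_mod_cast Nat.succ_le_succ (Nat.zero_le r)
    have a2 : (1 : ℝ) ≤ 2 ^ r := one_le_pow₀ (by norm_num)
    nlinarith
  · intro x t
    exact eval_le ((Finset.card_le_card (up_support l P x)).trans hcard) (norm_e t)

/-- few levels with a bound for the elimination products. -/
theorem H_products (l : Fin k → ℤ) {P : Pol k} (hP : P ≠ 0) {K : ℝ}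
    (hK : ∀ s ∈ lev l P, pr (lev l P) s ≤ K) :
    H P (ini (rl l) P) ≤ 2 * mm P + 2 * log (2 * ((lev l P).card * K)) := by
  classical
  have hne : (lev l P).Nonempty := (supp_nonempty hP).image _
  obtain ⟨s0, hs0⟩ := hne
  have hK1 : 1 ≤ K := (pr_ge _ s0).trans (hK s0 hs0)
  have hc1 : (1 : ℝ) ≤ (lev l P).card := by
    exact_mod_cast Finset.card_pos.2 ⟨s0, hs0⟩
  apply H_ini_le l hP
  · nlinarith
  · intro x t
    have hsub := up_support l P x
    have hM := (up l P x).mahlerMeasure_nonneg
    rw [Polynomial.eval_eq_sum, Polynomial.sum]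
    calc ‖∑ i ∈ (up l P x).support, (up l P x).coeff i * e t ^ i‖
        ≤ ∑ i ∈ (up l P x).support, ‖(up l P x).coeff i * e t ^ i‖ := norm_sum_le _ _
      _ ≤ ∑ i ∈ (up l P x).support, K * (up l P x).mahlerMeasure := by
          apply Finset.sum_le_sum
          intro i hi
          rw [norm_mul, norm_pow, norm_e, one_pow, mul_one]
          exact (coeff_le_pr _ (lev l P) i rfl _ hsub).trans
            (mul_le_mul_of_nonneg_right (hK i (hsub hi)) hM)
      _ = (up l P x).support.card * (K * (up l P x).mahlerMeasure) := by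
          rw [Finset.sum_const, nsmul_eq_mul]
      _ ≤ (lev l P).card * (K * (up l P x).mahlerMeasure) := by
          apply mul_le_mul_of_nonneg_right _ (by positivity)
          exact_mod_cast Finset.card_le_card hsub
      _ = (lev l P).card * K * (up l P x).mahlerMeasure := by ring

/-- dimension bound from the height of the pair `(P, ini u P)`. -/
theorem ndim_le_H {F P : Pol k} (hF : F ≠ 0) (y : Fin k → ℝ) (hP : Irreducible P)
    (hPF : P ∣ ini y F) {u : Fin k → ℝ} {c : ℝ} (hc : 0 ≤ c)
    (hH : H P (ini u P) ≤ 2 * mm P + c)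
    (h2 : ∃ j ∈ P.support, ∃ j' ∈ P.support, wt u j ≠ wt u j') :
    (ndim P : ℝ) ≤ Phi (2 * mahler F + c) := by
  classical
  have hP0 := hP.ne_zero
  have hQ : ini u P ≠ 0 := ini_ne_zero u hP0
  have hnd : ¬ P ∣ ini u P := by
    rintro ⟨R, hR⟩
    have hR0 : R ≠ 0 := by
      rintro rfl
      rw [mul_zero] at hR; exact hQ hR
    have h5 : ord u (ini u P) = ord u P := ord_ini u hP0
    have h6 : ord (-u) (ini u P) = - ord u P := by
      obtain ⟨j, hj, hj'⟩ := exists_ord (-u) hQ
      rw [← hj', wt_neg, (mem_support_ini.1 hj).2]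
    have h7 : ord u P + ord (-u) P < 0 := by
      obtain ⟨j, hj, j', hj', hne⟩ := h2
      have a1 := ord_le u hj
      have a2 := ord_le u hj'
      have a3 := ord_le (-u) hj
      have a4 := ord_le (-u) hj'
      rw [wt_neg] at a3 a4
      rcases lt_or_gt_of_ne hne with h | h
      · linarith
      · linarith
    have h8 := ord_add_ord_neg_le hR0 u
    rw [hR, ord_mul _ hP0 hR0] at h5 h6
    linarith
  have h4 := ndim_le hP hQ hnd hH
  refine h4.trans (Phi_mono ?_ ?_)
  · have := mm_nonneg hP0; linarith
  · rw [mahler_eq]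
    have h5 := mm_dvd_le (ini_ne_zero y hF) hPF
    have h6 := mm_ini_le y hF
    linarith

/-- transfer of the products from the values of `wt u`, `u` integral. -/
theorem products_transfer {u : Fin k → ℝ} {l : Fin k → ℤ} (hul : u = rl l) {P : Pol k}
    (hP : P ≠ 0) {K : ℝ}
    (hK : ∀ s ∈ P.support.image (wt u),
      ∏ m ∈ P.support.image (wt u) with s < m, (m - ord u P) / (m - s) ≤ K) :
    (∀ s ∈ lev l P, pr (lev l P) s ≤ K) ∧
      (lev l P).card = (P.support.image (wt u)).card := by
  classical
  subst hul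
  have hval : ∀ j ∈ P.support, (((wtZ l j - ordZ l P).toNat : ℕ) : ℝ) =
      wt (rl l) j - ord (rl l) P := by
    intro j hj
    have h1 : 0 ≤ wtZ l j - ordZ l P := by
      have := ordZ_le (l := l) hj
      omega
    have h2 : (((wtZ l j - ordZ l P).toNat : ℕ) : ℤ) = wtZ l j - ordZ l P :=
      Int.toNat_of_nonneg h1
    have h3 : (((wtZ l j - ordZ l P).toNat : ℕ) : ℝ) = (((wtZ l j - ordZ l P : ℤ)) : ℝ) := by
      rw [← h2]
      push_cast
      rfl
    rw [h3, wt_rl, ord_rl l hP]
    push_cast
    ring
  have himg : P.support.image (wt (rl l)) =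
      (lev l P).image (fun i : ℕ => (i : ℝ) + ord (rl l) P) := by
    unfold lev
    rw [Finset.image_image]
    apply Finset.image_congr
    intro j hj
    have := hval j (by simpa using hj)
    simp only [Function.comp]
    rw [this]
    ring
  have hinj : Function.Injective (fun i : ℕ => (i : ℝ) + ord (rl l) P) := by
    intro a b hab
    have : (a : ℝ) = b := by simpa using hab
    exact_mod_cast this
  refine ⟨?_, ?_⟩
  · intro s hs
    have h1 := hK ((s : ℝ) + ord (rl l) P) (by
      rw [himg]
      exact Finset.mem_image_of_mem _ hs)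
    refine le_trans (le_of_eq ?_) h1
    rw [himg]
    unfold pr
    rw [Finset.filter_image, Finset.prod_image (fun a _ b _ h => hinj h)]
    apply Finset.prod_congr
    · apply Finset.filter_congr
      intro m _
      constructor
      · intro h
        have : (s : ℝ) < m := by exact_mod_cast h
        linarith
      · intro h
        have : (s : ℝ) < m := by linarith
        exact_mod_cast this
    · intro m _
      congr 1
      · ring
      · ring
  · rw [himg, Finset.card_image_of_injective _ hinj]

end Pool.Agent.FLV
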